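import Pool.Agent.MWLQ.StmtsA

/-!
# MWLQ, row PRC: the first parts of the word `w1` (all periods)

Twin of `Pool.Agent.Helper22_MWLE.PRC`.
-/

namespace Pool.Agent.MWLQ.H10

open Pool.Agent.Helper14_MV
open Pool.Agent.Helper2_MV (RR)
open Pool.Agent.MWK (pre)
open Pool.Agent.MWGN (nn Tau gh)
open Pool.Agent.MWGQ (pw Z Gn E0 A0 P0)
open Pool.Agent.MWLE (pin sep con tl tll Sg t1 Fc Fb Fy Fx Fu Fz rz sf k0)

theorem cp_succ (n s k : ℕ) :
    cp n s (k + 1) = cp n s k ++ pin (s + k) :: List.replicate (n + 1) (con (s + k)) := by
  unfold cp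
  rw [List.range_succ, List.flatMap_append, List.flatMap_singleton]

theorem cp_split (n s : ℕ) {i k : ℕ} (h : i < k) :
    ∃ B, cp n s k = cp n s i ++ pin (s + i) :: B := by
  induction k with
  | zero => omega
  | succ k ih =>
    rw [cp_succ]
    rcases Nat.lt_succ_iff_lt_or_eq.1 h with h1 | h1
    · obtain ⟨B, hB⟩ := ih h1
      refine ⟨B ++ pin (s + k) :: List.replicate (n + 1) (con (s + k)), ?_⟩
      rw [hB]
      simp only [List.append_assoc, List.cons_append]
    · subst h1
      exact ⟨List.replicate (n + 1) (con (s + i)), rfl⟩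

theorem mem_cp {c n s k : ℕ} (h : c ∈ cp n s k) :
    ∃ j, s ≤ j ∧ j < s + k ∧ (c = pin j ∨ c = con j) := by
  unfold cp at h
  rw [List.mem_flatMap] at h
  obtain ⟨i, hi, hc⟩ := h
  rw [List.mem_range] at hi
  refine ⟨s + i, by omega, by omega, ?_⟩
  rcases List.mem_cons.1 hc with hc | hc
  · exact Or.inl hc
  · exact Or.inr (List.eq_of_mem_replicate hc)

theorem mem_tl {c : ℕ} {σ : List ℕ} (h : c ∈ tl σ) : ∃ k ∈ σ, c = sep k ∨ c = pin k := by
  unfold tl at h
  rw [List.mem_flatMap] at h
  obtain ⟨i, hi, hc⟩ := h
  refine ⟨i, hi, ?_⟩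
  simp only [List.mem_cons, List.not_mem_nil, or_false] at hc
  exact hc

theorem mem_N0 {c n m : ℕ} (h : c ∈ N0 n m) :
    c = 1 ∨ c = con 0 ∨ c = pin 0 ∨ ∃ j, 1 ≤ j ∧ j < 1 + m ∧ (c = pin j ∨ c = con j) := by
  unfold N0 at h
  rcases List.mem_cons.1 h with h | h
  · exact Or.inl h
  rcases List.mem_append.1 h with h | h
  · exact Or.inr (Or.inl (List.eq_of_mem_replicate h))
  rcases List.mem_cons.1 h with h | h
  · exact Or.inr (Or.inr (Or.inl h))
  · exact Or.inr (Or.inr (Or.inr (mem_cp h)))

theorem wb_form (n m : ℕ) : wb n m false false =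
    N0 n m ++ (0 :: (List.replicate (n + 1) (con (m + 1)) ++ (pin (m + 1) :: 1 ::
      (cp n (m + 2) m ++ [pin (2 * m + 2), 0])))) := by
  simp only [wb, Nx, Bool.false_eq_true, if_false, List.nil_append, List.append_assoc,
    List.cons_append]

theorem wd_form (n : ℕ) (σ : List ℕ) (m : ℕ) : wd n σ m false false =
    N0 n m ++ (0 :: (List.replicate (n + 1) (con (m + 1)) ++ (pin (m + 1) :: 1 ::
      (cp n (m + 2) m ++ (pin (2 * m + 2) :: 0 :: tl σ))))) := by
  unfold wd
  rw [wb_form]
  simp only [List.append_assoc, List.cons_append, List.nil_append]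

theorem N0_mod {c n m : ℕ} (h : c ∈ N0 n m) : c % 5 ≠ 3 := by
  rcases mem_N0 h with h | h | h | ⟨j, _, _, h | h⟩
  · omega
  all_goals
    simp only [pin, con] at h
    omega

theorem wb_mod {c n m : ℕ} (h : c ∈ wb n m false false) : c % 5 ≠ 3 := by
  rw [wb_form] at h
  simp only [List.mem_append, List.mem_cons, List.not_mem_nil, or_false] at h
  rcases h with h | h | h | h | h | h | h | h
  · exact N0_mod h
  · omega
  · have h1 := List.eq_of_mem_replicate h
    simp only [con] at h1
    omega
  · simp only [pin] at h
    omega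
  · omega
  · obtain ⟨j, _, _, h | h⟩ := mem_cp h <;> simp only [pin, con] at h <;> omega
  · simp only [pin] at h
    omega
  · omega

theorem sep_not_wb (n m k : ℕ) : sep k ∉ wb n m false false := by
  intro h
  apply wb_mod h
  simp only [sep]
  omega

theorem tl_append (a b : List ℕ) : tl (a ++ b) = tl a ++ tl b := by
  unfold tl
  rw [List.flatMap_append]

theorem tl_cons (k : ℕ) (b : List ℕ) : tl (k :: b) = sep k :: pin k :: tl b := by
  unfold tl
  rw [List.flatMap_cons]
  rfl

theorem pin_not_N0 {n m j : ℕ} (h : m < j) : pin j ∉ N0 n m := by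
  intro hm
  rcases mem_N0 hm with h1 | h1 | h1 | ⟨i, _, _, h1 | h1⟩ <;> simp only [pin, con] at h1 <;> omega

theorem pin_not_cp {n s k j : ℕ} (h : s + k ≤ j) : pin j ∉ cp n s k := by
  intro hm
  obtain ⟨i, _, _, h1 | h1⟩ := mem_cp hm <;> simp only [pin, con] at h1 <;> omega

theorem pin_not_rep (n j k : ℕ) : pin j ∉ List.replicate n (con k) := by
  intro h
  have h1 := List.eq_of_mem_replicate h
  simp only [pin, con] at h1
  omega

/-- **PRC** -/
theorem prc : PrcStmt := by
  intro n σ m
  refine ⟨?_, ?_, ?_, ?_, ?_, ?_⟩
  · have e : wd n σ m false false = (1 :: List.replicate (n + 1) (con 0)) ++ pin 0 ::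
        (cp n 1 m ++ (0 :: (List.replicate (n + 1) (con (m + 1)) ++ (pin (m + 1) :: 1 ::
          (cp n (m + 2) m ++ (pin (2 * m + 2) :: 0 :: tl σ)))))) := by
      rw [wd_form, N0]
      simp only [List.append_assoc, List.cons_append]
    rw [e]
    apply MWK.pre_split
    intro h
    rcases List.mem_cons.1 h with h | h
    · simp only [pin] at h
      omega
    · exact pin_not_rep _ _ _ h
  · intro i hi
    obtain ⟨B, hB⟩ := cp_split n 1 hi
    have e : wd n σ m false false =
        (1 :: (List.replicate (n + 1) (con 0) ++ pin 0 :: cp n 1 i)) ++ pin (1 + i) ::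
        (B ++ (0 :: (List.replicate (n + 1) (con (m + 1)) ++ (pin (m + 1) :: 1 ::
          (cp n (m + 2) m ++ (pin (2 * m + 2) :: 0 :: tl σ)))))) := by
      rw [wd_form, N0, hB]
      simp only [List.append_assoc, List.cons_append]
    rw [e]
    apply MWK.pre_split
    intro h
    rcases List.mem_cons.1 h with h | h
    · simp only [pin] at h
      omega
    rcases List.mem_append.1 h with h | h
    · exact pin_not_rep _ _ _ h
    rcases List.mem_cons.1 h with h | h
    · simp only [pin] at h
      omega
    · exact pin_not_cp (by omega) h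
  · have e : wd n σ m false false =
        (N0 n m ++ 0 :: List.replicate (n + 1) (con (m + 1))) ++ pin (m + 1) :: 1 ::
          (cp n (m + 2) m ++ (pin (2 * m + 2) :: 0 :: tl σ)) := by
      rw [wd_form]
      simp only [List.append_assoc, List.cons_append]
    rw [e]
    apply MWK.pre_split
    intro h
    rcases List.mem_append.1 h with h | h
    · exact pin_not_N0 (by omega) h
    rcases List.mem_cons.1 h with h | h
    · simp only [pin] at h
      omega
    · exact pin_not_rep _ _ _ h
  · intro i hi
    have hne : pin (m + 2 + i) ∉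
        N0 n m ++ (0 :: (List.replicate (n + 1) (con (m + 1)) ++
          pin (m + 1) :: 1 :: cp n (m + 2) i)) := by
      intro h
      rcases List.mem_append.1 h with h | h
      · exact pin_not_N0 (by omega) h
      rcases List.mem_cons.1 h with h | h
      · simp only [pin] at h
        omega
      rcases List.mem_append.1 h with h | h
      · exact pin_not_rep _ _ _ h
      rcases List.mem_cons.1 h with h | h
      · simp only [pin] at h
        omega
      rcases List.mem_cons.1 h with h | h
      · simp only [pin] at h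
        omega
      · exact pin_not_cp (by omega) h
    rcases Nat.lt_or_eq_of_le hi with h1 | h1
    · obtain ⟨B, hB⟩ := cp_split n (m + 2) h1
      have e : wd n σ m false false =
          (N0 n m ++ (0 :: (List.replicate (n + 1) (con (m + 1)) ++
            pin (m + 1) :: 1 :: cp n (m + 2) i))) ++
            pin (m + 2 + i) :: (B ++ (pin (2 * m + 2) :: 0 :: tl σ)) := by
        rw [wd_form, hB]
        simp only [List.append_assoc, List.cons_append]
      rw [e]
      exact MWK.pre_split hne _
    · subst h1
      have e2 : 2 * i + 2 = i + 2 + i := by omega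
      have e : wd n σ i false false =
          (N0 n i ++ (0 :: (List.replicate (n + 1) (con (i + 1)) ++
            pin (i + 1) :: 1 :: cp n (i + 2) i))) ++
            pin (i + 2 + i) :: 0 :: tl σ := by
        rw [wd_form, e2]
        simp only [List.append_assoc, List.cons_append]
      rw [e]
      exact MWK.pre_split hne _
  · intro hσ
    cases σ with
    | nil => exact absurd rfl hσ
    | cons k σ =>
      have e : wd n (k :: σ) m false false = wb n m false false ++ sep k :: (pin k :: tl σ) := by
        unfold wd
        rw [tl_cons]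
      have e1 : t1 (k :: σ) = sep k := rfl
      rw [e, e1]
      exact MWK.pre_split (sep_not_wb n m k) _
  · intro k hk
    obtain ⟨B, hB⟩ := MWK.mem_split hk
    have e : wd n σ m false false =
        (wb n m false false ++ tl (pre σ k)) ++ sep k :: (pin k :: tl B) := by
      unfold wd
      conv_lhs => rw [hB, tl_append, tl_cons]
      simp only [List.append_assoc]
    rw [e]
    apply MWK.pre_split
    intro h
    rcases List.mem_append.1 h with h | h
    · exact sep_not_wb n m k h
    · obtain ⟨j, hj, h1 | h1⟩ := mem_tl h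
      · have : j = k := by
          simp only [sep] at h1
          omega
        subst this
        exact MWK.not_mem_pre σ j hj
      · simp only [sep, pin] at h1
        omega

end Pool.Agent.MWLQ.H10
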